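import Pool.Agent.H160R2.HL.Final

/-! # Linear statistics of the spectrum of the Pascal matrix

For every continuous `g` with `|g x| ≤ K e^{-|x|}`:
`∑ g (log μ_i) = (3/(2π²)) (∫ g) log L (1 + o(1))`. -/

set_option autoImplicit false

namespace Pool.Agent.H160R2.NE
open Finset MeasureTheory
open Pool.Agent.H160R2.OA Pool.Agent.H160R2.HL

/-- the calibration function `log ((2 cosh x + 2)/(2 cosh x - 1))` -/
noncomputable def cal (x : ℝ) : ℝ :=
  Real.log ((2 * Real.cosh x + 1) / (2 * Real.cosh x + 2 * Real.cos (2 * Real.pi / 3))) -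
    Real.log ((2 * Real.cosh x + 1) / (2 * Real.cosh x + 2 * Real.cos 0))

theorem cos_two_thirds : Real.cos (2 * Real.pi / 3) = -(1 / 2) := by
  rw [show 2 * Real.pi / 3 = Real.pi - Real.pi / 3 by ring, Real.cos_pi_sub,
    Real.cos_pi_div_three]

theorem cal_eq (x : ℝ) : cal x = Real.log ((2 * Real.cosh x + 2) / (2 * Real.cosh x - 1)) := by
  have h1 := Real.one_le_cosh x
  unfold cal
  rw [cos_two_thirds, Real.cos_zero, ← Real.log_div (by
    have : 0 < 2 * Real.cosh x + 1 := by linarith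
    have : 0 < 2 * Real.cosh x + 2 * -(1 / 2) := by linarith
    positivity) (by positivity)]
  congr 1
  have a1 : (2 * Real.cosh x + 1) ≠ 0 := by linarith
  have a2 : (2 * Real.cosh x + 2 * -(1 / 2)) ≠ 0 := by linarith
  have a3 : (2 * Real.cosh x - 1) ≠ 0 := by linarith
  have a4 : (2 * Real.cosh x + 2 * 1) ≠ 0 := by linarith
  have e : 2 * Real.cosh x + 2 * -(1 / 2) = 2 * Real.cosh x - 1 := by ring
  rw [e]
  field_simp

theorem cal_lower (x : ℝ) : 3 / 4 * Real.exp (-|x|) ≤ cal x := by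
  have h1 := Real.one_le_cosh x
  have hc : Real.cosh x = (Real.exp |x| + Real.exp (-|x|)) / 2 := by
    rw [← Real.cosh_abs, Real.cosh_eq]
  have he1 : 1 ≤ Real.exp |x| := Real.one_le_exp (abs_nonneg x)
  have he2 : Real.exp (-|x|) ≤ 1 := Real.exp_le_one_iff.mpr (by simp)
  have hpos : 0 < 2 * Real.cosh x - 1 := by linarith
  rw [cal_eq]
  have h2 : 1 - ((2 * Real.cosh x + 2) / (2 * Real.cosh x - 1))⁻¹ ≤
      Real.log ((2 * Real.cosh x + 2) / (2 * Real.cosh x - 1)) :=
    Real.one_sub_inv_le_log_of_pos (by positivity)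
  refine le_trans ?_ h2
  rw [inv_div]
  have h3 : 1 - (2 * Real.cosh x - 1) / (2 * Real.cosh x + 2) = 3 / (2 * Real.cosh x + 2) := by
    field_simp; ring
  rw [h3, Real.exp_neg, ← div_eq_mul_inv, div_le_div_iff₀ (by positivity) (by positivity)]
  have h4 : 2 * Real.cosh x + 2 ≤ 4 * Real.exp |x| := by rw [hc]; linarith
  linarith

theorem cal_nonneg (x : ℝ) : 0 ≤ cal x :=
  le_trans (by positivity) (cal_lower x)

theorem cal_cont : Continuous cal := by
  have hπ := Real.pi_pos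
  exact (Z_cont (by positivity) (by linarith : 2 * Real.pi / 3 < Real.pi)).sub
    (Z_cont le_rfl hπ)

theorem cal_int : Integrable cal := by
  have hπ := Real.pi_pos
  exact (integral_log (2 * Real.pi / 3) (by positivity) (by linarith)).1.sub
    (integral_log 0 le_rfl hπ).1

theorem cal_integral : ∫ x, cal x = 4 * Real.pi ^ 2 / 9 := by
  have hπ := Real.pi_pos
  unfold cal
  rw [integral_sub (integral_log (2 * Real.pi / 3) (by positivity) (by linarith)).1
    (integral_log 0 le_rfl hπ).1, (integral_log (2 * Real.pi / 3) (by positivity) (by linarith)).2,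
    (integral_log 0 le_rfl hπ).2]
  ring

theorem cal_sum {L : ℕ} (hL : 1 ≤ L) {hJ : (J L).IsHermitian} {μ : Fin L → ℝ}
    (hμ : IsMu L hJ μ) :
    ∑ i, cal (Real.log (μ i)) ≤ 2 * Real.log 2 + 2 / 3 * Real.log L := by
  have hπ := Real.pi_pos
  unfold cal
  rw [sum_sub_distrib, Z_sum_log hμ (by positivity) (by linarith : 2 * Real.pi / 3 < Real.pi),
    Z_sum_log hμ le_rfl hπ]
  have := calib_log L hL
  linarith

/-- linear statistics -/
theorem lin_stat (g : ℝ → ℝ) (hg : Continuous g) (K : ℝ) (hK : ∀ x, |g x| ≤ K * Real.exp (-|x|))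
    (ε : ℝ) (hε : 0 < ε) : ∃ L0 : ℕ, ∀ L : ℕ, L0 ≤ L → ∀ (hJ : (J L).IsHermitian)
      (μ : Fin L → ℝ), IsMu L hJ μ →
      |∑ i, g (Real.log (μ i)) - 3 / (2 * Real.pi ^ 2) * (∫ x, g x) * Real.log L|
        ≤ ε * Real.log L := by
  have hπ := Real.pi_pos
  have hK0 : 0 ≤ K := by
    have := (abs_nonneg _).trans (hK 0)
    simpa using this
  set K' := 4 * K / 3 with hK'
  have hK'0 : 0 ≤ K' := by positivity
  have hdom : ∀ x, |g x| ≤ K' * cal x := by
    intro x
    have h1 := cal_lower x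
    calc |g x| ≤ K * Real.exp (-|x|) := hK x
      _ = K' * (3 / 4 * Real.exp (-|x|)) := by rw [hK']; ring
      _ ≤ K' * cal x := mul_le_mul_of_nonneg_left h1 hK'0
  have hgi : Integrable g := by
    apply Integrable.mono (cal_int.const_mul K') hg.aestronglyMeasurable
    filter_upwards with x
    rw [Real.norm_eq_abs, Real.norm_eq_abs, abs_of_nonneg (mul_nonneg hK'0 (cal_nonneg x))]
    exact hdom x
  have hci : Integrable (fun x => K' * cal x) := cal_int.const_mul K'
  have hI : ∫ x, K' * cal x = K' * (4 * Real.pi ^ 2 / 9) := by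
    rw [integral_const_mul, cal_integral]
  obtain ⟨L1, h1⟩ := sum_lower (fun x => K' * cal x - g x) ((cal_cont.const_mul K').sub hg)
    (fun x => by have := (abs_le.mp (hdom x)).2; linarith) (hci.sub hgi)
    (3 / (2 * Real.pi ^ 2) * (K' * (4 * Real.pi ^ 2 / 9) - ∫ x, g x) - ε / 2) (by
      rw [integral_sub hci hgi, hI]; linarith)
  obtain ⟨L2, h2⟩ := sum_lower (fun x => K' * cal x + g x) ((cal_cont.const_mul K').add hg)
    (fun x => by have := (abs_le.mp (hdom x)).1; linarith) (hci.add hgi)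
    (3 / (2 * Real.pi ^ 2) * (K' * (4 * Real.pi ^ 2 / 9) + ∫ x, g x) - ε / 2) (by
      rw [integral_add hci hgi, hI]; linarith)
  obtain ⟨M, hM⟩ := exists_nat_gt (Real.exp (4 * K' * Real.log 2 / ε))
  refine ⟨max (max 1 M) (max L1 L2), fun L hL hJ μ hμ => ?_⟩
  have hL1' : 1 ≤ L := le_trans (le_max_left _ _) (le_trans (le_max_left _ _) hL)
  have hLM : M ≤ L := le_trans (le_max_right _ _) (le_trans (le_max_left _ _) hL)
  have a1 := h1 L (le_trans (le_max_left _ _) (le_trans (le_max_right _ _) hL)) hJ μ hμ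
  have a2 := h2 L (le_trans (le_max_right _ _) (le_trans (le_max_right _ _) hL)) hJ μ hμ
  have hLpos : (0 : ℝ) < L := by exact_mod_cast hL1'
  have hlog : 2 * K' * Real.log 2 ≤ ε / 2 * Real.log L := by
    have h5 : 4 * K' * Real.log 2 / ε ≤ Real.log L := by
      rw [Real.le_log_iff_exp_le hLpos]
      exact hM.le.trans (by exact_mod_cast hLM)
    rw [div_le_iff₀ hε] at h5
    linarith
  have hcs := mul_le_mul_of_nonneg_left (cal_sum hL1' hμ) hK'0
  rw [sum_sub_distrib, ← mul_sum] at a1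
  rw [sum_add_distrib, ← mul_sum] at a2
  have e : 3 / (2 * Real.pi ^ 2) * (K' * (4 * Real.pi ^ 2 / 9)) = 2 / 3 * K' := by
    field_simp; ring
  have e1 : 3 / (2 * Real.pi ^ 2) * (K' * (4 * Real.pi ^ 2 / 9) - ∫ x, g x) =
      2 / 3 * K' - 3 / (2 * Real.pi ^ 2) * ∫ x, g x := by rw [mul_sub, e]
  have e2 : 3 / (2 * Real.pi ^ 2) * (K' * (4 * Real.pi ^ 2 / 9) + ∫ x, g x) =
      2 / 3 * K' + 3 / (2 * Real.pi ^ 2) * ∫ x, g x := by rw [mul_add, e]
  rw [e1] at a1
  rw [e2] at a2
  rw [abs_le]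
  constructor
  · nlinarith
  · nlinarith

end Pool.Agent.H160R2.NE
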