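import Pool.Agent.H863R2.Cyl.Value
import Pool.Agent.H160R2.NE.Lin
import Pool.Agent.H160R2.HL.Pas

/-! # The exact law of the number of nested loops -/

set_option autoImplicit false

namespace Pool.Agent.H160R2.NE
open Finset
open Pool.Agent.H160R2.OA (J IsMu det_B wB)
open Pool.Agent.H863R2.Cyl (Wd Tc push FSpec Fam KSpec pas tot VN VW pr exists_Fam exists_K G_ones
  pr_GSpec)

/-- the generating function of the number of loops for a stationary measure -/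
noncomputable def gf {m : ℕ} (f : List Bool → List Bool → ℕ) (μ : Wd (m + 1) → ℝ) (t : ℂ) : ℂ :=
  ∑ σ : Wd (m + 1), ∑ τ : Wd (m + 1), (μ σ : ℂ) * μ τ * t ^ f σ.1 τ.1

theorem w_of_t {t : ℂ} (ht : t ≠ -2) : ∃ w : ℂ, w ≠ 0 ∧ w ≠ -1 ∧ w + w⁻¹ = t := by
  obtain ⟨w, hw⟩ : ∃ w : ℂ, w ^ 2 - t * w + 1 = 0 := by
    obtain ⟨s, hs⟩ := IsAlgClosed.exists_pow_nat_eq (t ^ 2 - 4) (show 0 < 2 by norm_num)
    refine ⟨(t + s) / 2, ?_⟩
    linear_combination (1 / 4) * hs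
  have hw0 : w ≠ 0 := by
    rintro rfl
    norm_num at hw
  refine ⟨w, hw0, ?_, ?_⟩
  · rintro rfl
    apply ht
    linear_combination hw
  · field_simp
    linear_combination hw

theorem wi_ne {w : ℂ} (h : w ≠ -1) : w⁻¹ ≠ -1 := by
  intro h'
  apply h
  rw [← inv_inv w, h']
  norm_num

/-- product of the two determinants -/
theorem det_mul_det {L : ℕ} {hJ : (J L).IsHermitian} {ν : Fin L → ℝ} (hν : IsMu L hJ ν) {w : ℂ}
    (hw : w ≠ 0) : (pas w L).det * (pas w⁻¹ L).det =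
      ∏ i, ((2 * Real.cosh (Real.log (ν i)) : ℝ) + (w + w⁻¹) : ℂ) := by
  have hpos := hν.1
  have hdet := hν.2.2.1
  have hB : (∏ i, (ν i : ℂ)) = 1 := by
    have h0 := hdet 0
    simp only [zero_add] at h0
    rw [← h0]
    unfold wB
    rw [zero_smul, zero_add]
    have := congrArg (fun x : ℝ => (x : ℂ)) (det_B L)
    simp only [Complex.ofReal_one] at this
    rw [← this]
    exact (RingHom.map_det Complex.ofRealHom (Pool.Agent.H160R2.OA.B L)).symm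
  rw [HL.pas_eq, HL.pas_eq, hdet, hdet, ← Finset.prod_mul_distrib]
  have : ∀ i, (w + (ν i : ℂ)) * (w⁻¹ + (ν i : ℂ)) =
      (ν i : ℂ) * ((2 * Real.cosh (Real.log (ν i)) : ℝ) + (w + w⁻¹) : ℂ) := by
    intro i
    have h1 : (2 * Real.cosh (Real.log (ν i)) : ℝ) = ν i + (ν i)⁻¹ := by
      rw [Real.cosh_eq, Real.exp_log (hpos i), Real.exp_neg, Real.exp_log (hpos i)]; ring
    rw [h1]
    have h2 : (ν i : ℂ) ≠ 0 := by exact_mod_cast (hpos i).ne'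
    push_cast
    field_simp
    ring
  rw [Finset.prod_congr rfl (fun i _ => this i), Finset.prod_mul_distrib, hB, one_mul]

theorem gf_one {m : ℕ} (f : List Bool → List Bool → ℕ) (μ : Wd (m + 1) → ℝ) (hμ : ∑ σ, μ σ = 1) :
    gf f μ 1 = 1 := by
  unfold gf
  have : ∑ σ : Wd (m + 1), ∑ τ : Wd (m + 1), (μ σ : ℂ) * μ τ * 1 ^ f σ.1 τ.1 =
      ((((∑ σ : Wd (m + 1), μ σ) * (∑ τ : Wd (m + 1), μ τ) : ℝ)) : ℂ) := by
    push_cast
    rw [Finset.sum_mul_sum]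
    simp
  rw [this, hμ]
  simp

/-- common constant -/
theorem gf_eq {n m : ℕ} (hm1 : m + 1 = 2 * n) {f : List Bool → List Bool → ℕ} (hf : FSpec f)
    (μ : Wd (m + 1) → ℝ) (hμ : ∑ σ, μ σ = 1)
    (hst : ∀ σ, ∑ c : Fin (m + 1) → Bool, push (Tc m c) μ σ = 2 ^ (m + 1) * μ σ) :
    ∃ c : ℂ, c ≠ 0 ∧ ∀ w : ℂ, w ≠ 0 → w ≠ -1 →
      c * gf f μ (w + w⁻¹) = (w⁻¹) ^ n * (pas w (2 * n)).det := by
  obtain ⟨q, hq⟩ : ∃ q : ℂ, q ^ 2 + q + 1 = 0 := ⟨_, Pool.Agent.H988R2.Perc.q_spec⟩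
  have hq2 : (q ^ 2) ^ 2 + q ^ 2 + 1 = 0 := by
    calc (q ^ 2) ^ 2 + q ^ 2 + 1 = (q ^ 2 + q + 1) * (q ^ 2 - q + 1) := by ring
      _ = 0 := by rw [hq, zero_mul]
  obtain ⟨Ψ, hΨ⟩ := exists_Fam q hq
  obtain ⟨Ψ', hΨ'⟩ := exists_Fam (q ^ 2) hq2
  obtain ⟨K, hK⟩ := exists_K q
  obtain ⟨K', hK'⟩ := exists_K (q ^ 2)
  set one := List.replicate (m + 1) (1 : ℂ) with hone
  have hT0 : tot (Ψ one) ≠ 0 := hΨ.tot_ne (m + 1)
  have hT0' : tot (Ψ' one) ≠ 0 := hΨ'.tot_ne (m + 1)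
  have hmem : Ψ one ∈ VN (m + 1) := by
    have := hΨ.mem one
    rwa [hone, List.length_replicate] at this
  have hmem' : Ψ' one ∈ VN (m + 1) := by
    have := hΨ'.mem one
    rwa [hone, List.length_replicate] at this
  have e1 := Pool.Agent.H863R2.Cyl.ValueAux.eq_mu hΨ m μ hμ hst
  have e2 := Pool.Agent.H863R2.Cyl.ValueAux.eq_mu hΨ' m μ hμ hst
  have hG : ∀ t : ℂ, pr f t (Ψ' one) (Ψ one) = tot (Ψ' one) * tot (Ψ one) * gf f μ t := by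
    intro t
    rw [Pool.Agent.H863R2.Cyl.ValueAux.pr_eq f t hmem' hmem]
    unfold gf
    rw [Finset.mul_sum]
    apply Finset.sum_congr rfl
    intro σ _
    rw [Finset.mul_sum]
    apply Finset.sum_congr rfl
    intro τ _
    rw [e1 τ, e2 σ]
    ring
  have h3 : (3 : ℂ) ^ (2 * n * (n - 1)) ≠ 0 := pow_ne_zero _ (by norm_num)
  refine ⟨tot (Ψ' one) * tot (Ψ one) / 3 ^ (2 * n * (n - 1)),
    div_ne_zero (mul_ne_zero hT0' hT0) h3, fun w hw0 hw1 => ?_⟩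
  have g := G_ones hq hw0 hw1 (G := fun z => pr f (w + w⁻¹) (Ψ' z) (Ψ z))
    (pr_GSpec hq hΨ hΨ' hK hK' hf (w + w⁻¹)) n
  rw [← hm1, ← hone, hG, hm1] at g
  rw [div_mul_eq_mul_div, div_eq_iff h3, g]
  ring

/-- **the exact law**: the square of the generating function of the number of nested loops -/
theorem gf_sq {n m : ℕ} (hm1 : m + 1 = 2 * n) {f : List Bool → List Bool → ℕ} (hf : FSpec f)
    (μ : Wd (m + 1) → ℝ) (hμ : ∑ σ, μ σ = 1)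
    (hst : ∀ σ, ∑ c : Fin (m + 1) → Bool, push (Tc m c) μ σ = 2 ^ (m + 1) * μ σ)
    {hJ : (J (2 * n)).IsHermitian} {ν : Fin (2 * n) → ℝ} (hν : IsMu (2 * n) hJ ν) {t : ℂ}
    (ht : t ≠ -2) :
    gf f μ t ^ 2 * ∏ i, ((2 * Real.cosh (Real.log (ν i)) : ℝ) + 1 : ℂ) =
      ∏ i, ((2 * Real.cosh (Real.log (ν i)) : ℝ) + t : ℂ) := by
  obtain ⟨c, hc, h⟩ := gf_eq hm1 hf μ hμ hst
  have key : ∀ t : ℂ, t ≠ -2 → (c * gf f μ t) ^ 2 =
      ∏ i, ((2 * Real.cosh (Real.log (ν i)) : ℝ) + t : ℂ) := by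
    intro t ht
    obtain ⟨w, hw0, hw1, rfl⟩ := w_of_t ht
    have a := h w hw0 hw1
    have b := h w⁻¹ (inv_ne_zero hw0) (wi_ne hw1)
    rw [inv_inv, add_comm w⁻¹ w] at b
    rw [← det_mul_det hν hw0, sq]
    nth_rewrite 1 [a]
    rw [b]
    have : (w⁻¹) ^ n * w ^ n = 1 := by
      rw [← mul_pow, inv_mul_cancel₀ hw0, one_pow]
    calc (w⁻¹) ^ n * (pas w (2 * n)).det * (w ^ n * (pas w⁻¹ (2 * n)).det)
        = ((w⁻¹) ^ n * w ^ n) * ((pas w (2 * n)).det * (pas w⁻¹ (2 * n)).det) := by ring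
      _ = _ := by rw [this, one_mul]
  have k1 := key 1 (by norm_num)
  rw [gf_one f μ hμ, mul_one] at k1
  have kt := key t ht
  rw [mul_pow] at kt
  rw [← k1, ← kt]
  ring

end Pool.Agent.H160R2.NE
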